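import Pool.Agent.Results.MP_40378c_al.QIInvariance

/-!
Transfer of the closeness of finite boundaries through coarse maps, with explicit constants.
-/

set_option autoImplicit false

open SimpleGraph Relation

namespace Pool.Agent.Y779.CBQ

open Pool.Agent.Results.MP_40378c_al.QIInvariance

universe u v

variable {V : Type u} {V' : Type v}

/-- closeness of the edge boundary, in terms of ordered pairs -/
def ClP (Γ : SimpleGraph V) (t : ℝ) (K : Set V) : Prop :=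
  ∀ P : V × V → Prop, (∀ e ∈ bd Γ K, (P e ↔ P e.swap)) → (∃ e ∈ bd Γ K, P e) →
    (∃ e ∈ bd Γ K, ¬ P e) →
    ∃ e ∈ bd Γ K, ∃ e' ∈ bd Γ K, P e ∧ ¬ P e' ∧ (Γ.dist e.1 e'.1 : ℝ) ≤ t

theorem pq1 (p q r : Prop) : ¬ (p ↔ r) ↔ ¬ (¬ (p ↔ q) ↔ ¬ (q ↔ r)) := by
  by_cases hp : p <;> by_cases hq : q <;> by_cases hr : r <;> simp [hp, hq, hr]

theorem pq2 (x y s r : Prop) : ¬ (¬ (x ↔ s) ↔ ¬ (y ↔ r)) ↔ ¬ (¬ (s ↔ ¬ (x ↔ y)) ↔ r) := by
  by_cases hx : x <;> by_cases hy : y <;> by_cases hs : s <;> by_cases hr : r <;>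
    simp [hx, hy, hs, hr]

theorem bd_swap {Γ : SimpleGraph V} {K : Set V} {e : V × V} (h : e ∈ bd Γ K) : e.swap ∈ bd Γ K := by
  obtain ⟨h1, h2⟩ := h
  exact ⟨h1.symm, fun h => h2 h.symm⟩

theorem ob_finite {Γ : SimpleGraph V} {F : Set V} (hbd : (bd Γ F).Finite) : (ob Γ F).Finite := by
  refine (hbd.image Prod.fst).subset ?_
  rintro o ⟨ho, k, hk, hadj⟩
  refine ⟨(o, k), ⟨hadj, ?_⟩, rfl⟩
  simp only
  tauto

theorem transferK {Γ : SimpleGraph V} {Γ' : SimpleGraph V'} (hΓ : Γ.Connected)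
    (hΓ' : Γ'.Connected) (lf' : ∀ v, (Γ'.neighborSet v).Finite)
    {f : V → V'} {g : V' → V} {L A B D t : ℝ} {R : ℕ} (hL : 0 ≤ L) (hA0 : 0 ≤ A) (ht : 0 ≤ t)
    (h1 : ∀ x y, (Γ'.dist (f x) (f y) : ℝ) ≤ L * Γ.dist x y + A)
    (h2 : ∀ w, (Γ'.dist w (f (g w)) : ℝ) ≤ B)
    (h3 : ∀ v w, Γ'.Adj v w → (Γ.dist (g v) (g w) : ℝ) ≤ D)
    (h4 : ∀ v', (f ⁻¹' {v'}).Finite)
    (hR1 : L * D + A ≤ R) (hR2 : L + A ≤ R) (hR3 : B + 1 ≤ R)
    {F' : Set V'} (hF : Co Γ' F') (hFc : Co Γ' F'ᶜ) (hbd : (bd Γ' F').Finite)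
    (hcl : ∀ K : Set V, Co Γ K → Co Γ Kᶜ → (bd Γ K).Finite → bd Γ K ⊆ bd Γ (f ⁻¹' F') →
      ClP Γ t K)
    {S : Set V'} (hS : S ⊆ ob Γ' F') (hSne : S.Nonempty) (hTne : (ob Γ' F' \ S).Nonempty) :
    ∃ a ∈ S, ∃ b ∈ ob Γ' F' \ S, (Γ'.dist a b : ℝ) ≤ L * t + A + 2 * R := by
  by_contra hcon
  push Not at hcon
  have hLt : 0 ≤ L * t := mul_nonneg hL ht
  have hfar : ∀ a ∈ S, ∀ b ∈ ob Γ' F', b ∉ S → 2 * R < Γ'.dist a b := by
    intro a ha b hb hbA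
    have := hcon a ha b ⟨hb, hbA⟩
    have h5 : ((2 * R : ℕ) : ℝ) < Γ'.dist a b := by
      push_cast
      linarith
    exact_mod_cast h5
  have hadj1 : ∀ x y, Γ.Adj x y → Γ'.dist (f x) (f y) ≤ R := by
    intro x y hxy
    have h5 := h1 x y
    rw [dist_adj hxy, Nat.cast_one, mul_one] at h5
    exact_mod_cast h5.trans hR2
  have hlen : ∀ x y, (Γ.dist x y : ℝ) ≤ D → Γ'.dist (f x) (f y) ≤ R := by
    intro x y hxy
    have h5 := h1 x y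
    have h6 : L * (Γ.dist x y : ℝ) ≤ L * D := mul_le_mul_of_nonneg_left hxy hL
    have h7 : (Γ'.dist (f x) (f y) : ℝ) ≤ R := by linarith
    exact_mod_cast h7
  have hgd : ∀ w, Γ'.dist w (f (g w)) + 1 ≤ R := by
    intro w
    have h5 := h2 w
    have h6 : ((Γ'.dist w (f (g w)) + 1 : ℕ) : ℝ) ≤ R := by
      push_cast
      linarith
    exact_mod_cast h6
  obtain ⟨F, hFdef⟩ : ∃ F : Set V, F = f ⁻¹' F' := ⟨_, rfl⟩
  rw [← hFdef] at hcl
  have hmemF : ∀ x, x ∈ F ↔ f x ∈ F' := by intro x; rw [hFdef]; rfl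
  -- finiteness of the boundary of `F`
  have hobfin : (ob Γ' F').Finite := ob_finite hbd
  have hWfin : (⋃ o ∈ ob Γ' F', {w | Γ'.dist o w ≤ R}).Finite :=
    hobfin.biUnion (fun o _ => ball_finite hΓ' lf' o R)
  have hFW : ∀ x y, Γ.Adj x y → ¬ (x ∈ F ↔ y ∈ F) →
      f x ∈ (⋃ o ∈ ob Γ' F', {w | Γ'.dist o w ≤ R}) := by
    intro x y hxy hne
    rw [hmemF, hmemF] at hne
    obtain ⟨o, k, e1, e2, e3, e4, e5⟩ := crossing hΓ' (hadj1 x y hxy) hne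
    refine Set.mem_biUnion (x := o) ⟨e1, k, e2, e3⟩ ?_
    simp only [Set.mem_ofPred_eq]
    rw [Γ'.dist_comm]; exact e4
  have hpre : (f ⁻¹' (⋃ o ∈ ob Γ' F', {w | Γ'.dist o w ≤ R})).Finite := by
    have : f ⁻¹' (⋃ o ∈ ob Γ' F', {w | Γ'.dist o w ≤ R}) =
        ⋃ w ∈ (⋃ o ∈ ob Γ' F', {w | Γ'.dist o w ≤ R}), f ⁻¹' {w} := by
      ext x; simp
    rw [this]
    exact hWfin.biUnion (fun w _ => h4 w)
  have hbdF : (bd Γ F).Finite := by
    refine (hpre.prod hpre).subset ?_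
    rintro ⟨x, y⟩ ⟨hxy, hne⟩
    refine ⟨hFW x y hxy hne, hFW y x hxy.symm ?_⟩
    intro h; exact hne h.symm
  -- monochromatic
  have hmono : ∀ K : Set V, Co Γ K → Co Γ Kᶜ → bd Γ K ⊆ bd Γ F →
      ∀ e ∈ bd Γ K, ∀ e' ∈ bd Γ K, (near Γ' S R (f e.1) ↔ near Γ' S R (f e'.1)) := by
    intro K hK hKc hsub
    have hsym : ∀ e ∈ bd Γ K, (near Γ' S R (f e.1) ↔ near Γ' S R (f e.swap.1)) := by
      rintro ⟨x, y⟩ he
      have heF : (x, y) ∈ bd Γ F := hsub he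
      have hne2 : ¬ (x ∈ F ↔ y ∈ F) := heF.2
      rw [hmemF, hmemF] at hne2
      exact near_symm hΓ' hfar (hadj1 x y heF.1) hne2
    have key : ∀ e ∈ bd Γ K, ∀ e' ∈ bd Γ K, near Γ' S R (f e.1) → near Γ' S R (f e'.1) := by
      intro e he e' he' hn
      by_contra hn'
      obtain ⟨q, hq, q', hq', p1, p2, p3⟩ := hcl K hK hKc (hbdF.subset hsub) hsub
        (fun e => near Γ' S R (f e.1)) hsym ⟨e, he, hn⟩ ⟨e', he', hn'⟩
      obtain ⟨a, ha, had⟩ := p1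
      have hb : q' ∈ bd Γ F := hsub hq'
      have hne : ¬ (q'.1 ∈ F ↔ q'.2 ∈ F) := hb.2
      rw [hmemF, hmemF] at hne
      obtain ⟨o, k, e1, e2, e3, e4, e5⟩ := crossing hΓ' (hadj1 q'.1 q'.2 hb.1) hne
      have ho : o ∈ ob Γ' F' := ⟨e1, k, e2, e3⟩
      by_cases hoA : o ∈ S
      · exact p2 ⟨o, hoA, e4⟩
      · have e6 := hcon a ha o ⟨ho, hoA⟩
        have e7 := hΓ'.dist_triangle (u := a) (v := f q.1) (w := o)
        have e8 := hΓ'.dist_triangle (u := f q.1) (v := f q'.1) (w := o)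
        have e9 := Γ'.dist_comm (u := a) (v := f q.1)
        have e10 := h1 q.1 q'.1
        have e11 : L * (Γ.dist q.1 q'.1 : ℝ) ≤ L * t := mul_le_mul_of_nonneg_left p3 hL
        have e12 : (Γ'.dist a o : ℝ) ≤ R + (Γ'.dist (f q.1) (f q'.1) : ℝ) + R := by
          have : Γ'.dist a o ≤ R + Γ'.dist (f q.1) (f q'.1) + R := by omega
          exact_mod_cast this
        linarith
    intro e he e' he'
    exact ⟨key e he e' he', key e' he' e he⟩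
  obtain ⟨X, hX⟩ := cut_lemma hΓ (fun x => near Γ' S R (f x)) _ F hbdF le_rfl hmono
  have hX' : ∀ x y, Γ.Adj x y → (¬ (x ∈ X ↔ y ∈ X) ↔ sg Γ' F' S R (f x) (f y)) := by
    intro x y hxy
    rw [hX x y hxy, hmemF, hmemF]
    rfl
  -- along short walks
  have hpath : ∀ {x y : V} (p : Γ.Walk x y), (p.length : ℝ) ≤ D →
      (¬ (x ∈ X ↔ y ∈ X) ↔ sg Γ' F' S R (f x) (f y)) := by
    intro x y p
    induction p with
    | nil => intro _; simp [sg]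
    | @cons a b d hadj p ih =>
      intro hl
      have hl2 : (p.length : ℝ) ≤ D := by
        rw [Walk.length_cons] at hl
        push_cast at hl
        linarith
      have e1 := hX' a b hadj
      have e2 := ih hl2
      have d1 : Γ'.dist (f a) (f b) ≤ R := hadj1 a b hadj
      have d2 : Γ'.dist (f b) (f d) ≤ R := by
        refine hlen b d (le_trans ?_ hl2)
        exact_mod_cast dist_le p
      have d3 : Γ'.dist (f a) (f d) ≤ R := by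
        refine hlen a d (le_trans ?_ hl)
        exact_mod_cast dist_le (Walk.cons hadj p)
      rw [sg_add hΓ' hfar d1 d2 d3, ← e1, ← e2]
      exact pq1 _ _ _
  have hgg : ∀ v w, Γ'.Adj v w → (¬ (g v ∈ X ↔ g w ∈ X) ↔
      sg Γ' F' S R (f (g v)) (f (g w))) := by
    intro v w hvw
    obtain ⟨p, hp⟩ := hΓ.exists_walk_length_eq_dist (g v) (g w)
    exact hpath p (by rw [hp]; exact h3 v w hvw)
  -- the pulled-back set
  obtain ⟨X', hX'def⟩ : ∃ X' : V' → Prop, ∀ v, X' v ↔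
      ¬ (g v ∈ X ↔ sg Γ' F' S R v (f (g v))) := ⟨_, fun _ => Iff.rfl⟩
  have hmain : ∀ v w, Γ'.Adj v w → (¬ (X' v ↔ X' w) ↔ sg Γ' F' S R v w) := by
    intro v w hvw
    have e1 := hgg v w hvw
    have d0 := dist_adj hvw
    have dv := hgd v
    have dw := hgd w
    have dvw : Γ'.dist v w ≤ R := by omega
    have d1 : Γ'.dist v (f (g v)) ≤ R := by omega
    have d2 : Γ'.dist (f (g v)) (f (g w)) ≤ R := hlen _ _ (h3 v w hvw)
    have d3 : Γ'.dist v (f (g w)) ≤ R := by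
      have := hΓ'.dist_triangle (u := v) (v := w) (w := f (g w))
      omega
    have d4 : Γ'.dist w (f (g w)) ≤ R := by omega
    have d5 : Γ'.dist (f (g w)) w ≤ R := by rw [Γ'.dist_comm]; exact d4
    have a1 := sg_add hΓ' hfar d1 d2 d3
    have a2 := sg_add hΓ' hfar d3 d5 dvw
    have a3 := sg_symm hΓ' hfar d4
    rw [hX'def, hX'def, a2, a1, ← a3, ← e1]
    exact pq2 _ _ _ _
  obtain ⟨a, haA⟩ := hSne
  obtain ⟨b, hbO, hbA⟩ := hTne
  obtain ⟨haF, ka, hka, haadj⟩ := hS haA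
  obtain ⟨hbF, kb, hkb, hbadj⟩ := hbO
  have hin : ∀ v ∈ F', ∀ w ∈ F', (X' v ↔ X' w) := by
    intro v hv w hw
    refine RC.prop (hF.2 v hv w hw) (fun z => X' v ↔ X' z) ?_ Iff.rfl
    intro p q hpq hp hq ih
    rw [ih]
    by_contra hne
    exact ((hmain p q hpq).mp hne).1 ⟨fun _ => hq, fun _ => hp⟩
  have hout : ∀ v ∈ F'ᶜ, ∀ w ∈ F'ᶜ, (X' v ↔ X' w) := by
    intro v hv w hw
    refine RC.prop (hFc.2 v hv w hw) (fun z => X' v ↔ X' z) ?_ Iff.rfl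
    intro p q hpq hp hq ih
    rw [ih]
    by_contra hne
    exact ((hmain p q hpq).mp hne).1 ⟨fun h => absurd h hp, fun h => absurd h hq⟩
  have ea : ¬ (X' a ↔ X' ka) := by
    rw [hmain a ka haadj]
    refine ⟨fun h => haF (h.mpr hka), a, haA, ?_⟩
    rw [dist_self]; omega
  have eb : (X' b ↔ X' kb) := by
    by_contra hne
    obtain ⟨_, a', ha', hd⟩ := (hmain b kb hbadj).mp hne
    have := hfar a' ha' b ⟨hbF, kb, hkb, hbadj⟩ hbA
    have hc := Γ'.dist_comm (u := a') (v := b)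
    omega
  have ec := hin ka hka kb hkb
  have ed := hout a haF b hbF
  exact ea (by rw [ed, eb, ec])

/-- `CB_r` implies that finite boundaries are `(2 r + 1)`-close -/
theorem clP_of_cb {Γ : SimpleGraph V} (hΓ : Γ.Connected) {r : ℕ} (hr : CBfin Γ r) {K : Set V}
    (hK : Co Γ K) (hKc : Co Γ Kᶜ) (hfin : (bd Γ K).Finite) : ClP Γ (2 * r + 1) K := by
  rintro P hsym ⟨e, he, hPe⟩ ⟨e', he', hPe'⟩
  by_contra hcon
  push Not at hcon
  have hZ := hr K hK hKc hfin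
  have hZq : ∀ z ∈ nbhd Γ (r + 1) K \ K, ∃ q ∈ ob Γ K, Γ.dist z q ≤ r := by
    rintro z ⟨⟨y, hy, hzy⟩, hzK⟩
    obtain ⟨p, hp⟩ := hΓ.exists_walk_length_eq_dist z y
    obtain ⟨o, k, e1, e2, e3, e4⟩ := first_exit hΓ p hzK hy
    exact ⟨o, ⟨e1, k, e2, e3⟩, by omega⟩
  have hobZ : ∀ q ∈ ob Γ K, q ∈ nbhd Γ (r + 1) K \ K := by
    rintro q ⟨hq, k, hk, hadj⟩
    refine ⟨⟨k, hk, ?_⟩, hq⟩
    rw [dist_adj hadj]; omega
  have hbdo : ∀ q k, q ∉ K → k ∈ K → Γ.Adj q k → (q, k) ∈ bd Γ K := by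
    intro q k hq hk hadj
    refine ⟨hadj, ?_⟩
    simp only
    tauto
  -- jumping
  have hjump : ∀ q k q' k', q ∉ K → k ∈ K → Γ.Adj q k → q' ∉ K → k' ∈ K → Γ.Adj q' k' →
      Γ.dist q q' ≤ 2 * r + 1 → P (q, k) → P (q', k') := by
    intro q k q' k' a1 a2 a3 b1 b2 b3 hd hP
    by_contra hP'
    have h5 := hcon (q, k) (hbdo q k a1 a2 a3) (q', k') (hbdo q' k' b1 b2 b3) hP hP'
    have h6 : (Γ.dist q q' : ℝ) ≤ 2 * r + 1 := by exact_mod_cast hd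
    linarith
  -- normalise the edges
  have hnorm : ∀ e ∈ bd Γ K, ∃ q k, q ∉ K ∧ k ∈ K ∧ Γ.Adj q k ∧ (P e ↔ P (q, k)) := by
    rintro ⟨x, y⟩ he
    have hs := hsym _ he
    obtain ⟨hxy, hne⟩ := he
    simp only at hxy hne
    by_cases hx : x ∈ K
    · exact ⟨y, x, by tauto, hx, hxy.symm, hs⟩
    · exact ⟨x, y, hx, by tauto, hxy, Iff.rfl⟩
  obtain ⟨q, k, a1, a2, a3, a4⟩ := hnorm e he
  obtain ⟨q', k', b1, b2, b3, b4⟩ := hnorm e' he'
  rw [a4] at hPe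
  rw [b4] at hPe'
  have hqo : q ∈ ob Γ K := ⟨a1, k, a2, a3⟩
  have hqo' : q' ∈ ob Γ K := ⟨b1, k', b2, b3⟩
  have hrc := hZ.2 q (hobZ q hqo) q' (hobZ q' hqo')
  have := RC.prop hrc (fun z => ∃ u w, u ∉ K ∧ w ∈ K ∧ Γ.Adj u w ∧ Γ.dist z u ≤ r ∧ P (u, w))
    ?_ ?_
  · obtain ⟨u, w, c1, c2, c3, c4, c5⟩ := this
    refine hPe' (hjump u w q' k' c1 c2 c3 b1 b2 b3 ?_ c5)
    rw [Γ.dist_comm]
    omega
  · rintro a b hab _ hb ⟨u, w, c1, c2, c3, c4, c5⟩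
    obtain ⟨u', ⟨hu', w', hw', hadj'⟩, hd'⟩ := hZq b hb
    refine ⟨u', w', hu', hw', hadj', hd', hjump u w u' w' c1 c2 c3 hu' hw' hadj' ?_ c5⟩
    have e1 := hΓ.dist_triangle (u := u) (v := a) (w := u')
    have e2 := hΓ.dist_triangle (u := a) (v := b) (w := u')
    have e3 := Γ.dist_comm (u := u) (v := a)
    have e4 := dist_adj hab
    omega
  · refine ⟨q, k, a1, a2, a3, ?_, hPe⟩
    rw [dist_self]; omega

end Pool.Agent.Y779.CBQ
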